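import Pool.Agent.Lib.MP_4d0379_lc.Zuck

open Pool.Agent.Lib.MP_4d0379_lc N68a2faeb

namespace Pool.Agent.Results.MP_4d0379_lc.Hard

/-- For every positive `ε` it is NP-hard to approximate the half-chromatic number of the
continuous graph of an `n`-vertex graph within the factor `n ^ (1 - ε)`. -/
theorem result (ε : ℝ) (hε : 0 < ε) :
    (∀ L ∈ NP, ∃ f : List Bool → List (List Bool) × ℕ, IsPolyTime f ∧ ∀ x : List Bool,
      (f x).1 ≠ [] ∧ ∀ A : ℝ, Approx ε (f x).1 A → (L x = true ↔ A ≤ (f x).2)) ∧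
    ∀ alg : List (List Bool) → ℚ, IsPolyTime alg → (∀ M, M ≠ [] → Approx ε M (alg M)) →
      NP ⊆ P :=
  final colGap ε hε

end Pool.Agent.Results.MP_4d0379_lc.Hard
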